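import Pool.Agent.U348.LB.Main

set_option autoImplicit false

/-!
# From extension theorems to the list edge-colouring conjecture
-/

namespace Pool.Agent.U348.LB

open Finset Pool.Agent.TH559.LE

variable {V : Type}

theorem col_of_choosable (G : SimpleGraph V) (k : ℕ) (h : Choosable G k) :
    G.lineGraph.Colorable k := by
  obtain ⟨f, hf1, hf2⟩ := h (fun _ => range k) (by simp)
  exact ⟨SimpleGraph.Coloring.mk (fun e => (⟨f e, Finset.mem_range.1 (hf1 e)⟩ : Fin k)) (by
    intro e e' h heq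
    exact hf2 e e' h (congrArg Fin.val heq))⟩

/-- A `k`-edge-choosable graph which is not `(k - 1)`-edge-colourable satisfies the conjecture. -/
theorem lec_of (G : SimpleGraph V) (m : ℕ) (h1 : Choosable G m)
    (h2 : ¬ G.lineGraph.Colorable (m - 1)) (k : ℕ) :
    G.lineGraph.Colorable k ↔ Choosable G k := by
  refine ⟨fun h => ?_, col_of_choosable G k⟩
  have hk : m ≤ k := by
    by_contra hcon
    exact h2 (h.mono (by omega))
  intro L hL
  exact h1 L (fun e => hk.trans (hL e))

/-- A proper colouring as a function on all pairs. -/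
theorem exists_col (G : SimpleGraph V) (k : ℕ) (h : G.lineGraph.Colorable k) :
    ∃ c : Sym2 V → ℕ, (∀ u v w, G.Adj u v → G.Adj u w → v ≠ w → c s(u, v) ≠ c s(u, w)) ∧
      (∀ u v, G.Adj u v → c s(u, v) < k) ∧ ∀ z, z ∉ G.edgeSet → c z = 0 := by
  classical
  obtain ⟨C⟩ := h
  refine ⟨fun z => if h : z ∈ G.edgeSet then (C ⟨z, h⟩ : ℕ) else 0, ?_, ?_, ?_⟩
  · intro u v w h1 h2 hne heq
    have h1' := (SimpleGraph.mem_edgeSet G).2 h1
    have h2' := (SimpleGraph.mem_edgeSet G).2 h2
    simp only at heq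
    rw [dif_pos h1', dif_pos h2'] at heq
    exact C.valid ((lg_iff G _ _).2 ⟨u, v, w, h1, h2, hne, rfl, rfl⟩) (Fin.ext heq)
  · intro u v h1
    have h1' := (SimpleGraph.mem_edgeSet G).2 h1
    simp only
    rw [dif_pos h1']
    exact (C _).2
  · intro z hz
    simp only
    rw [dif_neg hz]

/-- With at most one colour there is nothing to do. -/
theorem small (G : SimpleGraph V) (k : ℕ) (hk : k ≤ 1) (h : G.lineGraph.Colorable k) :
    Choosable G k := by
  obtain ⟨c, hc, hck, -⟩ := exists_col G k h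
  rw [choosable_iff]
  intro L hL
  have hne : ∀ u v, G.Adj u v → (L s(u, v)).Nonempty := by
    intro u v huv
    rw [← Finset.card_pos]
    have h1 := hck u v huv
    have h2 := hL u v huv
    omega
  classical
  refine ⟨fun z => if h : (L z).Nonempty then h.choose else 0, ?_, ?_⟩
  · intro u v huv
    simp only
    rw [dif_pos (hne u v huv)]
    exact (hne u v huv).choose_spec
  · intro u v w h1 h2 h3
    exfalso
    apply hc u v w h1 h2 h3
    have := hck u v h1
    have := hck u w h2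
    omega

/-- The extension property gives choosability. -/
theorem choosable_of (G M : SimpleGraph V) (k : ℕ)
    (hM : ∀ L : Sym2 V → Finset ℕ, (∀ u v, M.Adj u v → k ≤ (L s(u, v)).card) → ∃ c, Ok M L c)
    (hMG : M ≤ G)
    (h : ∀ (L : Sym2 V → Finset ℕ) (c₀ : Sym2 V → ℕ),
      (∀ u v w, M.Adj u v → M.Adj u w → v ≠ w → c₀ s(u, v) ≠ c₀ s(u, w)) →
      (∀ u v, G.Adj u v → ¬ M.Adj u v → k ≤ (L s(u, v)).card) →
      ∃ c : Sym2 V → ℕ, (∀ u v w, G.Adj u v → G.Adj u w → v ≠ w → c s(u, v) ≠ c s(u, w)) ∧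
        (∀ u v, M.Adj u v → c s(u, v) = c₀ s(u, v)) ∧
        ∀ u v, G.Adj u v → ¬ M.Adj u v → c s(u, v) ∈ L s(u, v)) : Choosable G k := by
  rw [choosable_iff]
  intro L hL
  obtain ⟨c₀, hc₀⟩ := hM L (fun u v h => hL u v (hMG h))
  obtain ⟨c, h1, h2, h3⟩ := h L c₀ hc₀.2 (fun u v h _ => hL u v h)
  refine ⟨c, ?_, h1⟩
  intro u v huv
  by_cases hm : M.Adj u v
  · rw [h2 u v hm]
    exact hc₀.1 u v hm
  · exact h3 u v huv hm

open Classical in
/-- Any colouring of `M` extends if the lists have at least `deg u + dM v` colours. -/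
theorem preL [Fintype V] (G M : SimpleGraph V) (hMG : M ≤ G) (X : V → Prop)
    (hX : ∀ u v, G.Adj u v → ¬ M.Adj u v → (X u ↔ ¬ X v)) (L : Sym2 V → Finset ℕ)
    (c₀ : Sym2 V → ℕ)
    (hc₀ : ∀ u v w, M.Adj u v → M.Adj u w → v ≠ w → c₀ s(u, v) ≠ c₀ s(u, w))
    (hL : ∀ u v, G.Adj u v → ¬ M.Adj u v → dg G u + dg M v ≤ (L s(u, v)).card) :
    ∃ c : Sym2 V → ℕ, (∀ u v w, G.Adj u v → G.Adj u w → v ≠ w → c s(u, v) ≠ c s(u, w)) ∧
      (∀ u v, M.Adj u v → c s(u, v) = c₀ s(u, v)) ∧
      ∀ u v, G.Adj u v → ¬ M.Adj u v → c s(u, v) ∈ L s(u, v) := by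
  set L' : Sym2 V → Finset ℕ := fun z => if z ∈ M.edgeSet then {c₀ z} else L z with hL'
  have h1 : ∀ u v, M.Adj u v → L' s(u, v) = {c₀ s(u, v)} := by
    intro u v h
    simp only [hL']
    rw [if_pos ((SimpleGraph.mem_edgeSet M).2 h)]
  have h2 : ∀ u v, ¬ M.Adj u v → L' s(u, v) = L s(u, v) := by
    intro u v h
    simp only [hL']
    rw [if_neg (fun h' => h ((SimpleGraph.mem_edgeSet M).1 h'))]
  obtain ⟨c, hc⟩ := ext M G hMG X hX L' (by
    intro u v h3 h4
    rw [h2 u v h4]
    exact hL u v h3 h4) c₀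
    ⟨fun u v h => by rw [h1 u v h]; exact Finset.mem_singleton_self _, hc₀⟩
  refine ⟨c, hc.2, ?_, ?_⟩
  · intro u v h
    have := hc.1 u v (hMG h)
    rw [h1 u v h] at this
    exact Finset.mem_singleton.1 this
  · intro u v h3 h4
    have := hc.1 u v h3
    rwa [h2 u v h4] at this

theorem choosableD [Fintype V] (G M : SimpleGraph V) (d D : ℕ) (hMG : M ≤ G) (X : V → Prop)
    (hX : ∀ u v, G.Adj u v → ¬ M.Adj u v → (X u ↔ ¬ X v)) (hd : ∀ v, dg M v ≤ d)
    (hD : ∀ v, dg G v ≤ D) : Choosable G (D + d) := by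
  refine choosable_of G M (D + d) ?_ hMG
    (fun L c₀ h1 h2 => preL G M hMG X hX L c₀ h1 (fun u v h3 h4 => by
      have := h2 u v h3 h4
      have := hd v
      have := hD u
      omega))
  intro L hL
  refine greedy M ⊥ bot_le L ⟨fun _ => 0, fun u v h => absurd h (by simp),
    fun u v w h => absurd h (by simp)⟩ ?_
  intro u v h _
  have h1 := hL u v h
  have h2 := hd u
  have h3 := (dg_mono hMG v).trans (hD v)
  omega

/-- The largest subgraph all of whose edges have ends with degree sum at least `k + 2` in it. -/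
def core' (G : SimpleGraph V) (k : ℕ) : SimpleGraph V :=
  sSup {K | K ≤ G ∧ ∀ u v, K.Adj u v → k + 2 ≤ (K.neighborSet u).ncard + (K.neighborSet v).ncard}

theorem core'_le (G : SimpleGraph V) (k : ℕ) : core' G k ≤ G := sSup_le (fun _ h => h.1)

theorem le_core' (G : SimpleGraph V) (k : ℕ) (K : SimpleGraph V) (h1 : K ≤ G)
    (h2 : ∀ u v, K.Adj u v → k + 2 ≤ (K.neighborSet u).ncard + (K.neighborSet v).ncard) :
    K ≤ core' G k := le_sSup ⟨h1, h2⟩

theorem core'_heavy [Fintype V] (G : SimpleGraph V) (k : ℕ) (u v : V) (h : (core' G k).Adj u v) :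
    k + 2 ≤ dg (core' G k) u + dg (core' G k) v := by
  rw [core', SimpleGraph.sSup_adj] at h
  obtain ⟨K, hK, h1⟩ := h
  have h2 := hK.2 u v h1
  have h3 : K ≤ core' G k := le_core' G k K hK.1 hK.2
  have h4 := dg_mono h3 u
  have h5 := dg_mono h3 v
  unfold dg at h4 h5 ⊢
  omega

/-- Every larger subgraph has a light edge outside the core. -/
theorem core'_light [Fintype V] (G : SimpleGraph V) (k : ℕ) (H : SimpleGraph V)
    (h1 : core' G k < H) (h2 : H ≤ G) :
    ∃ u v, H.Adj u v ∧ ¬ (core' G k).Adj u v ∧ dg H u + dg H v ≤ k + 1 := by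
  by_contra hcon
  push Not at hcon
  have h3 : H ≤ core' G k := by
    apply le_core' G k H h2
    intro u v huv
    by_cases h : (core' G k).Adj u v
    · have h4 := core'_heavy G k u v h
      have h5 := dg_mono h1.le u
      have h6 := dg_mono h1.le v
      unfold dg at h4 h5 h6
      omega
    · have := hcon u v huv h
      unfold dg at this
      omega
  exact absurd h3 (not_le_of_gt h1)

/-- Edges outside the core can be ignored. -/
theorem ofHeavy [Fintype V] (G : SimpleGraph V) (D k : ℕ) (hDk : D ≤ k)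
    (h : Choosable (core' G D) k) : Choosable G k := by
  rw [choosable_iff] at h ⊢
  intro L hL
  apply red_base G (core' G D) (core'_le G D) L (h L (fun u v huv => hL u v (core'_le G D huv)))
  intro H hBH hHG
  obtain ⟨u, v, huv, huv', hlight⟩ := core'_light G D H hBH hHG
  have hne : u ≠ v := huv.ne
  have key : ∀ x y, H.Adj x y → ¬ (H.deleteEdges {s(u, v)}).Adj x y →
      (x = u ∧ y = v) ∨ (x = v ∧ y = u) := by
    intro x y h1 h2
    rw [SimpleGraph.deleteEdges_adj] at h2
    push Not at h2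
    have h4 := h2 h1
    rwa [Set.mem_singleton_iff, Sym2.eq_iff] at h4
  refine ⟨H.deleteEdges {s(u, v)}, ?_, ?_, fun w => w = u, ?_, ?_⟩
  · intro x y hxy
    by_contra hcon
    rcases key x y (hBH.le hxy) hcon with ⟨rfl, rfl⟩ | ⟨rfl, rfl⟩
    · exact huv' hxy
    · exact huv' hxy.symm
  · refine lt_of_le_of_ne (SimpleGraph.deleteEdges_le _) ?_
    intro heq
    have : (H.deleteEdges {s(u, v)}).Adj u v := by rw [heq]; exact huv
    rw [SimpleGraph.deleteEdges_adj] at this
    exact this.2 rfl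
  · intro x y h1 h2
    rcases key x y h1 h2 with ⟨rfl, rfl⟩ | ⟨rfl, rfl⟩
    · simp [hne.symm]
    · simp [hne.symm]
  · intro x y h1 h2
    have h5 : dg (H.deleteEdges {s(u, v)}) y < dg H y :=
      dg_lt (SimpleGraph.deleteEdges_le _) h1.symm (fun h => h2 h.symm)
    have h8 := hL x y (hHG h1)
    have h9 : dg H x + dg H y ≤ D + 1 := by
      rcases key x y h1 h2 with ⟨rfl, rfl⟩ | ⟨rfl, rfl⟩
      · exact hlight
      · rw [Nat.add_comm]
        exact hlight
    omega

/-- The sides of a 2-colourable graph. -/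
theorem sides (G M : SimpleGraph V) (h : (G \ M).Colorable 2) :
    ∃ X : Set V, ∀ u v, G.Adj u v → ¬ M.Adj u v → ¬ (u ∈ X ↔ v ∈ X) := by
  obtain ⟨C⟩ := h
  refine ⟨{v | C v = 0}, ?_⟩
  intro u v h1 h2 h3
  have hne : C u ≠ C v := C.valid (show (G \ M).Adj u v from ⟨h1, h2⟩)
  change C u = 0 ↔ C v = 0 at h3
  have hu : (C u).val = 0 ∨ (C u).val = 1 := by have := (C u).2; omega
  have hv : (C v).val = 0 ∨ (C v).val = 1 := by have := (C v).2; omega
  have e : ∀ x : Fin 2, x = 0 ↔ x.val = 0 := fun x => by rw [Fin.ext_iff]; rfl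
  rw [e, e] at h3
  apply hne
  apply Fin.ext
  omega

/-- If `k` colours suffice and the two sides are monochromatic in different colours, `G` is
`k`-edge-choosable. -/
theorem choosable_two [Fintype V] (G : SimpleGraph V) (X : Set V) (k : ℕ) (c : Sym2 V → ℕ)
    (α β : V → ℕ) (hc : ∀ u v w, G.Adj u v → G.Adj u w → v ≠ w → c s(u, v) ≠ c s(u, w))
    (hk : ∀ u v, G.Adj u v → c s(u, v) < k) (hα : ∀ v, α v < k)
    (hβ : ∀ v, β v < k) (hαβ : ∀ v, α v ≠ β v) (hαc : ∀ u v, G.Adj u v → α u = α v)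
    (hβc : ∀ u v, G.Adj u v → β u = β v)
    (hin : ∀ u v, G.Adj u v → u ∈ X → v ∈ X → c s(u, v) = α u)
    (hout : ∀ u v, G.Adj u v → u ∉ X → v ∉ X → c s(u, v) = β u) : Choosable G k := by
  have hone : ∀ u v w, (inner G X).Adj u v → (inner G X).Adj u w → v = w := by
    intro u v w h1 h2
    by_contra hne
    have h3 := hc u v w h1.1 h2.1 hne
    by_cases hu : u ∈ X
    · exact h3 ((hin u v h1.1 hu (h1.2.1 hu)).trans (hin u w h2.1 hu (h2.2.1 hu)).symm)
    · exact h3 ((hout u v h1.1 hu (fun h => hu (h1.2.2 h))).trans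
        (hout u w h2.1 hu (fun h => hu (h2.2.2 h))).symm)
  refine choosable_of G (inner G X) k ?_ (fun u v h => h.1) ?_
  · intro L hL
    classical
    refine ⟨fun z => if h : (L z).Nonempty then h.choose else 0, ?_, ?_⟩
    · intro u v huv
      have hne : (L s(u, v)).Nonempty := by
        rw [← Finset.card_pos]
        have := hL u v huv
        have := hα u
        omega
      simp only
      rw [dif_pos hne]
      exact hne.choose_spec
    · intro u v w h1 h2 h3
      exact absurd (hone u v w h1 h2) h3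
  · intro L c₀ _ hL
    obtain ⟨c', h1, h2, h3⟩ := two G X k c α β hc hk hα hβ hαβ hαc hβc hin hout L c₀
      (fun u v h4 h5 => hL u v h4 (fun h6 => h5 h6.2))
    exact ⟨c', h1, fun u v h => h2 u v h.1 h.2,
      fun u v h4 h5 => h3 u v h4 (fun h6 => h5 ⟨h4, h6⟩)⟩

/-- With at most one colour there is nothing to do. -/
theorem small' (G : SimpleGraph V) (k : ℕ) (hk : k ≤ 1) (c : Sym2 V → ℕ)
    (hc : ∀ u v w, G.Adj u v → G.Adj u w → v ≠ w → c s(u, v) ≠ c s(u, w))
    (hck : ∀ u v, G.Adj u v → c s(u, v) < k) : Choosable G k := by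
  rw [choosable_iff]
  intro L hL
  have hne : ∀ u v, G.Adj u v → (L s(u, v)).Nonempty := by
    intro u v huv
    rw [← Finset.card_pos]
    have h1 := hck u v huv
    have h2 := hL u v huv
    omega
  classical
  refine ⟨fun z => if h : (L z).Nonempty then h.choose else 0, ?_, ?_⟩
  · intro u v huv
    simp only
    rw [dif_pos (hne u v huv)]
    exact (hne u v huv).choose_spec
  · intro u v w h1 h2 h3
    exfalso
    apply hc u v w h1 h2 h3
    have := hck u v h1
    have := hck u w h2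
    omega

/-- Graphs in which every component becomes bipartite after deleting at most one edge. -/
theorem comp [Fintype V] (H M : SimpleGraph V) (h2 : (H \ M).Colorable 2)
    (hM : M ≤ H) (hcomp : ∀ u v u' v', M.Adj u v → M.Adj u' v' → H.Reachable u u' →
      s(u, v) = s(u', v')) (k : ℕ) (c : Sym2 V → ℕ)
    (hc : ∀ u v w, H.Adj u v → H.Adj u w → v ≠ w → c s(u, v) ≠ c s(u, w))
    (hck : ∀ u v, H.Adj u v → c s(u, v) < k) : Choosable H k := by
  classical
  obtain ⟨X, hX⟩ := sides H M h2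
  have hinn : ∀ u v, H.Adj u v → (u ∈ X ↔ v ∈ X) → M.Adj u v := by
    intro u v h1 h2
    by_contra h3
    exact hX u v h1 h3 h2
  by_cases hk1 : k ≤ 1
  · exact small' H k hk1 c hc hck
  set val : V → ℕ := fun x => if h : ∃ a b, M.Adj a b ∧ H.Reachable x a then
    c s(h.choose, h.choose_spec.choose) else 0 with hval0
  have hval : ∀ x a b, M.Adj a b → H.Reachable x a → val x = c s(a, b) := by
    intro x a b h1 h2
    have h : ∃ a b, M.Adj a b ∧ H.Reachable x a := ⟨a, b, h1, h2⟩
    have h3 := h.choose_spec.choose_spec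
    simp only [hval0]
    rw [dif_pos h]
    rw [hcomp _ _ a b h3.1 h1 (h3.2.symm.trans h2)]
  have hvk : ∀ x, val x < k := by
    intro x
    by_cases h : ∃ a b, M.Adj a b ∧ H.Reachable x a
    · obtain ⟨a, b, h1, h2⟩ := h
      rw [hval x a b h1 h2]
      exact hck a b (hM h1)
    · simp only [hval0]
      rw [dif_neg h]
      omega
  have hvadj : ∀ u v, H.Adj u v → val u = val v := by
    intro u v huv
    by_cases h : ∃ a b, M.Adj a b ∧ H.Reachable u a
    · obtain ⟨a, b, h1, h2⟩ := h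
      rw [hval u a b h1 h2, hval v a b h1 (huv.symm.reachable.trans h2)]
    · have h' : ¬ ∃ a b, M.Adj a b ∧ H.Reachable v a := by
        rintro ⟨a, b, h1, h2⟩
        exact h ⟨a, b, h1, huv.reachable.trans h2⟩
      simp only [hval0]
      rw [dif_neg h, dif_neg h']
  set ins : V → Prop := fun x => ∃ a b, M.Adj a b ∧ H.Reachable x a ∧ a ∈ X ∧ b ∈ X with hins
  have hiadj : ∀ u v, H.Adj u v → (ins u ↔ ins v) := by
    intro u v huv
    constructor
    · rintro ⟨a, b, h1, h2, h3⟩
      exact ⟨a, b, h1, huv.symm.reachable.trans h2, h3⟩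
    · rintro ⟨a, b, h1, h2, h3⟩
      exact ⟨a, b, h1, huv.reachable.trans h2, h3⟩
  set oth : V → ℕ := fun x => if val x = 0 then 1 else 0 with hoth
  have hothk : ∀ x, oth x < k := by
    intro x
    simp only [hoth]
    split_ifs <;> omega
  have hothne : ∀ x, oth x ≠ val x := by
    intro x
    simp only [hoth]
    split_ifs with h
    · omega
    · exact fun h' => h h'.symm
  refine choosable_two H X k c (fun x => if ins x then val x else oth x)
    (fun x => if ins x then oth x else val x) hc hck ?_ ?_ ?_ ?_ ?_ ?_ ?_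
  · intro v
    split_ifs
    · exact hvk v
    · exact hothk v
  · intro v
    split_ifs
    · exact hothk v
    · exact hvk v
  · intro v
    split_ifs
    · exact (hothne v).symm
    · exact hothne v
  · intro u v huv
    simp only [hoth, hvadj u v huv, hiadj u v huv]
  · intro u v huv
    simp only [hoth, hvadj u v huv, hiadj u v huv]
  · intro u v huv hu hv
    have hm := hinn u v huv ⟨fun _ => hv, fun _ => hu⟩
    have hi : ins u := ⟨u, v, hm, SimpleGraph.Reachable.refl u, hu, hv⟩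
    rw [if_pos hi, hval u u v hm (SimpleGraph.Reachable.refl u)]
  · intro u v huv hu hv
    have hm := hinn u v huv ⟨fun h => absurd h hu, fun h => absurd h hv⟩
    have hi : ¬ ins u := by
      rintro ⟨a, b, h1, h2, h3, h4⟩
      have e1 := hcomp u v a b hm h1 h2
      rw [Sym2.eq_iff] at e1
      rcases e1 with e1 | e1
      · exact hu (e1.1 ▸ h3)
      · exact hu (e1.1 ▸ h4)
    rw [if_neg hi, hval u u v hm (SimpleGraph.Reachable.refl u)]

/-- The component of `v` in `K` contains at most one edge of `M`. -/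
def few (K M : SimpleGraph V) (v : V) : Prop :=
  ∀ a b a' b', M.Adj a b → M.Adj a' b' → K.Reachable v a → K.Reachable v a' → s(a, b) = s(a', b')

theorem few_adj (K M : SimpleGraph V) (u v : V) (h : K.Adj u v) (hf : few K M u) : few K M v :=
  fun a b a' b' h1 h2 h3 h4 => hf a b a' b' h1 h2 (h.reachable.trans h3) (h.reachable.trans h4)

theorem mix [Fintype V] (K M : SimpleGraph V) (D : ℕ) (hM : M ≤ K) (h2 : (K \ M).Colorable 2)
    (hcond : ∀ u v, K.Adj u v → few K M u ∨
      ((M.Adj u v → dg M u + dg M v ≤ D + 1) ∧ (¬ M.Adj u v → dg K u + dg M v ≤ D)))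
    (k : ℕ) (hDk : D ≤ k) (c : Sym2 V → ℕ)
    (hc : ∀ u v w, K.Adj u v → K.Adj u w → v ≠ w → c s(u, v) ≠ c s(u, w))
    (hck : ∀ u v, K.Adj u v → c s(u, v) < k) : Choosable K k := by
  classical
  have hsym : ∀ u v, K.Adj u v → (few K M u ↔ few K M v) :=
    fun u v h => ⟨few_adj K M u v h, few_adj K M v u h.symm⟩
  let K1 : SimpleGraph V :=
    { Adj := fun a b => K.Adj a b ∧ few K M a
      symm := ⟨fun a b h => ⟨h.1.symm, (hsym a b h.1).1 h.2⟩⟩
      loopless := ⟨fun a h => K.loopless.irrefl _ h.1⟩ }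
  let K2 : SimpleGraph V :=
    { Adj := fun a b => K.Adj a b ∧ ¬ few K M a
      symm := ⟨fun a b h => ⟨h.1.symm, fun h' => h.2 ((hsym a b h.1).2 h')⟩⟩
      loopless := ⟨fun a h => K.loopless.irrefl _ h.1⟩ }
  have hK1 : K1 ≤ K := fun a b h => h.1
  have hK2 : K2 ≤ K := fun a b h => h.1
  have C1 : Choosable K1 k := by
    refine comp K1 (M ⊓ K1) (h2.mono_left ?_) inf_le_right ?_ k c
      (fun u v w h1 h2 => hc u v w h1.1 h2.1) (fun u v h1 => hck u v h1.1)
    · intro a b h
      rw [SimpleGraph.sdiff_adj] at h ⊢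
      exact ⟨h.1.1, fun h' => h.2 ⟨h', h.1⟩⟩
    · intro u v u' v' h1 h2 h3
      exact h1.2.2 u v u' v' h1.1 h2.1 (SimpleGraph.Reachable.refl u) (h3.mono hK1)
  have C2 : Choosable K2 k := by
    obtain ⟨X, hX⟩ := sides K M h2
    have hMle : M ⊓ K2 ≤ K2 := inf_le_right
    have hnM : ∀ u v, K2.Adj u v → ¬ (M ⊓ K2).Adj u v → ¬ M.Adj u v :=
      fun u v h1 h2 h3 => h2 ⟨h3, h1⟩
    refine choosable_of K2 (M ⊓ K2) k ?_ hMle (fun L c₀ h1 h2 => preL K2 (M ⊓ K2) hMle
      (fun v => v ∈ X) ?_ L c₀ h1 (fun u v h3 h4 => ?_))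
    · intro L hL
      refine greedy (M ⊓ K2) ⊥ bot_le L ⟨fun _ => 0, fun u v h => absurd h (by simp),
        fun u v w h => absurd h (by simp)⟩ ?_
      intro u v h _
      have h1 := hL u v h
      rcases hcond u v (hM h.1) with h3 | h3
      · exact absurd h3 h.2.2
      · have h4 := h3.1 h.1
        have h5 := dg_mono (inf_le_left : M ⊓ K2 ≤ M) u
        have h6 := dg_mono (inf_le_left : M ⊓ K2 ≤ M) v
        omega
    · intro u v h3 h4
      have := hX u v h3.1 (hnM u v h3 h4)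
      tauto
    · have h5 := h2 u v h3 h4
      rcases hcond u v h3.1 with h6 | h6
      · exact absurd h6 h3.2
      · have h7 := h6.2 (hnM u v h3 h4)
        have h8 := dg_mono hK2 u
        have h9 := dg_mono (inf_le_left : M ⊓ K2 ≤ M) v
        omega
  rw [choosable_iff] at C1 C2 ⊢
  intro L hL
  obtain ⟨c1, h11, h12⟩ := C1 L (fun u v h => hL u v h.1)
  obtain ⟨c2, h21, h22⟩ := C2 L (fun u v h => hL u v h.1)
  have e1 : ∀ u v, K.Adj u v → few K M u →
      (if s(u, v) ∈ K1.edgeSet then c1 s(u, v) else c2 s(u, v)) = c1 s(u, v) := by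
    intro u v h1 h2
    rw [if_pos ((SimpleGraph.mem_edgeSet K1).2 ⟨h1, h2⟩)]
  have e2 : ∀ u v, ¬ few K M u →
      (if s(u, v) ∈ K1.edgeSet then c1 s(u, v) else c2 s(u, v)) = c2 s(u, v) := by
    intro u v h2
    rw [if_neg (fun h => h2 ((SimpleGraph.mem_edgeSet K1).1 h).2)]
  refine ⟨fun z => if z ∈ K1.edgeSet then c1 z else c2 z, ?_, ?_⟩
  · intro u v h
    show (if s(u, v) ∈ K1.edgeSet then c1 s(u, v) else c2 s(u, v)) ∈ L s(u, v)
    by_cases hu : few K M u
    · rw [e1 u v h hu]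
      exact h11 u v ⟨h, hu⟩
    · rw [e2 u v hu]
      exact h21 u v ⟨h, hu⟩
  · intro u v w h1 h2 hne
    show (if s(u, v) ∈ K1.edgeSet then c1 s(u, v) else c2 s(u, v)) ≠
      (if s(u, w) ∈ K1.edgeSet then c1 s(u, w) else c2 s(u, w))
    by_cases hu : few K M u
    · rw [e1 u v h1 hu, e1 u w h2 hu]
      exact h12 u v w ⟨h1, hu⟩ ⟨h2, hu⟩ hne
    · rw [e2 u v hu, e2 u w hu]
      exact h22 u v w ⟨h1, hu⟩ ⟨h2, hu⟩ hne

theorem deg_le_of_col [Fintype V] (G : SimpleGraph V) (k : ℕ) (c : Sym2 V → ℕ)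
    (hc : ∀ u v w, G.Adj u v → G.Adj u w → v ≠ w → c s(u, v) ≠ c s(u, w))
    (hck : ∀ u v, G.Adj u v → c s(u, v) < k) (v : V) : dg G v ≤ k := by
  classical
  rw [dg_eq, ← Finset.card_range k]
  refine Finset.card_le_card_of_injOn (fun w => c s(v, w)) ?_ ?_
  · intro w hw
    have hw' := (Finset.mem_filter.1 (Finset.mem_coe.1 hw)).2
    exact Finset.mem_coe.2 (Finset.mem_range.2 (hck v w hw'))
  · intro a ha b hb hab
    have ha' := (Finset.mem_filter.1 (Finset.mem_coe.1 ha)).2
    have hb' := (Finset.mem_filter.1 (Finset.mem_coe.1 hb)).2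
    by_contra hne
    exact hc v a b ha' hb' hne hab

/-- Edge-colourings imply list edge-colourings under the condition `mix` for the core. -/
theorem mixCore [Fintype V] (G M : SimpleGraph V) (D : ℕ)
    (hM : M ≤ core' G D) (h2 : (core' G D \ M).Colorable 2)
    (hcond : ∀ u v, (core' G D).Adj u v → few (core' G D) M u ∨
      ((M.Adj u v → dg M u + dg M v ≤ D + 1) ∧ (¬ M.Adj u v → dg (core' G D) u + dg M v ≤ D)))
    (k : ℕ) (hDk : D ≤ k) (h : G.lineGraph.Colorable k) : Choosable G k := by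
  obtain ⟨c, hc, hck, -⟩ := exists_col G k h
  apply ofHeavy G D k hDk
  exact mix (core' G D) M D hM h2 hcond k hDk c
    (fun u v w h1 h2 => hc u v w (core'_le G D h1) (core'_le G D h2))
    (fun u v h1 => hck u v (core'_le G D h1))

theorem lecMix [Fintype V] (G M : SimpleGraph V) (D : ℕ) (hv : ∃ v, D ≤ dg G v)
    (hM : M ≤ core' G D) (h2 : (core' G D \ M).Colorable 2)
    (hcond : ∀ u v, (core' G D).Adj u v → few (core' G D) M u ∨
      ((M.Adj u v → dg M u + dg M v ≤ D + 1) ∧ (¬ M.Adj u v → dg (core' G D) u + dg M v ≤ D)))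
    (k : ℕ) : G.lineGraph.Colorable k ↔ Choosable G k := by
  refine ⟨fun h => ?_, col_of_choosable G k⟩
  obtain ⟨c, hc, hck, -⟩ := exists_col G k h
  obtain ⟨v, hv⟩ := hv
  exact mixCore G M D hM h2 hcond k (hv.trans (deg_le_of_col G k c hc hck v)) h

/-- `D + d` colours suffice. -/
theorem choosableHeavy [Fintype V] (G M : SimpleGraph V) (d D : ℕ)
    (hM : M ≤ core' G (D + d)) (h2 : (core' G (D + d) \ M).Colorable 2)
    (hd : ∀ v, dg M v ≤ d) (hD : ∀ v, dg G v ≤ D) : Choosable G (D + d) := by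
  obtain ⟨X, hX⟩ := sides _ M h2
  apply ofHeavy G (D + d) (D + d) le_rfl
  refine choosableD (core' G (D + d)) M d D hM (fun v => v ∈ X) ?_ hd ?_
  · intro u v h1 h2
    have := hX u v h1 h2
    tauto
  · intro v
    exact (dg_mono (core'_le G (D + d)) v).trans (hD v)

/-- Two matchings, one for the inner edges of each side. -/
theorem twoMatch [Fintype V] (K N₁ N₂ : SimpleGraph V) (X : Set V) (D : ℕ)
    (hN₁ : ∀ u v w, N₁.Adj u v → N₁.Adj u w → v = w)
    (hN₂ : ∀ u v w, N₂.Adj u v → N₂.Adj u w → v = w)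
    (hdisj : ∀ u v, N₁.Adj u v → ¬ N₂.Adj u v)
    (hin : ∀ u v, K.Adj u v → u ∈ X → v ∈ X → N₁.Adj u v)
    (hout : ∀ u v, K.Adj u v → u ∉ X → v ∉ X → N₂.Adj u v)
    (hdeg : ∀ v, dg (K \ (N₁ ⊔ N₂)) v + 2 ≤ D) : Choosable K D := by
  classical
  set R := K \ (N₁ ⊔ N₂) with hR
  have hRadj : ∀ u v, R.Adj u v ↔ K.Adj u v ∧ ¬ N₁.Adj u v ∧ ¬ N₂.Adj u v := by
    intro u v
    rw [hR, SimpleGraph.sdiff_adj, SimpleGraph.sup_adj]
    tauto
  have hRX : ∀ u v, R.Adj u v → ¬ (⊥ : SimpleGraph V).Adj u v → (u ∈ X ↔ ¬ v ∈ X) := by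
    intro u v h _
    obtain ⟨h1, h2, h3⟩ := (hRadj u v).1 h
    have h4 := hin u v h1
    have h5 := hout u v h1
    tauto
  have hCh : Choosable R (D - 2 + 0) := by
    refine choosableD R ⊥ 0 (D - 2) bot_le (fun v => v ∈ X) hRX ?_ ?_
    · intro v
      unfold dg
      rw [Nat.le_zero, Set.ncard_eq_zero (Set.toFinite _)]
      ext w
      simp
    · intro v
      have := hdeg v
      omega
  obtain ⟨c, hc, hck, -⟩ := exists_col R (D - 2) (by
    have := col_of_choosable R (D - 2 + 0) hCh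
    simpa using this)
  set c' : Sym2 V → ℕ := fun z => if z ∈ N₁.edgeSet then D - 2 else
    if z ∈ N₂.edgeSet then D - 1 else c z with hc'
  have v1 : ∀ u v, N₁.Adj u v → c' s(u, v) = D - 2 := by
    intro u v h
    simp only [hc']
    rw [if_pos ((SimpleGraph.mem_edgeSet N₁).2 h)]
  have v2 : ∀ u v, N₂.Adj u v → c' s(u, v) = D - 1 := by
    intro u v h
    simp only [hc']
    rw [if_neg (fun h' => hdisj u v ((SimpleGraph.mem_edgeSet N₁).1 h') h),
      if_pos ((SimpleGraph.mem_edgeSet N₂).2 h)]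
  have v3 : ∀ u v, ¬ N₁.Adj u v → ¬ N₂.Adj u v → c' s(u, v) = c s(u, v) := by
    intro u v h1 h2
    simp only [hc']
    rw [if_neg (fun h' => h1 ((SimpleGraph.mem_edgeSet N₁).1 h')),
      if_neg (fun h' => h2 ((SimpleGraph.mem_edgeSet N₂).1 h'))]
  have hval : ∀ u v, K.Adj u v → (N₁.Adj u v ∧ c' s(u, v) = D - 2) ∨
      (N₂.Adj u v ∧ c' s(u, v) = D - 1) ∨ (R.Adj u v ∧ c' s(u, v) = c s(u, v) ∧
        c s(u, v) < D - 2) := by
    intro u v h
    by_cases h1 : N₁.Adj u v
    · exact Or.inl ⟨h1, v1 u v h1⟩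
    · by_cases h2 : N₂.Adj u v
      · exact Or.inr (Or.inl ⟨h2, v2 u v h2⟩)
      · have h3 := (hRadj u v).2 ⟨h, h1, h2⟩
        exact Or.inr (Or.inr ⟨h3, v3 u v h1 h2, hck u v h3⟩)
  refine choosable_two K X D c' (fun _ => D - 2) (fun _ => D - 1) ?_ ?_ ?_ ?_ ?_
    (fun _ _ _ => rfl) (fun _ _ _ => rfl) (fun u v h1 h2 h3 => v1 u v (hin u v h1 h2 h3))
    (fun u v h1 h2 h3 => v2 u v (hout u v h1 h2 h3))
  · intro u v w h1 h2 hne
    have hD := hdeg u
    rcases hval u v h1 with ⟨a1, a2⟩ | ⟨a1, a2⟩ | ⟨a1, a2, a3⟩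
    · rcases hval u w h2 with ⟨b1, b2⟩ | ⟨b1, b2⟩ | ⟨b1, b2, b3⟩
      · exact absurd (hN₁ u v w a1 b1) hne
      · omega
      · omega
    · rcases hval u w h2 with ⟨b1, b2⟩ | ⟨b1, b2⟩ | ⟨b1, b2, b3⟩
      · omega
      · exact absurd (hN₂ u v w a1 b1) hne
      · omega
    · rcases hval u w h2 with ⟨b1, b2⟩ | ⟨b1, b2⟩ | ⟨b1, b2, b3⟩
      · omega
      · omega
      · rw [a2, b2]
        exact hc u v w a1 b1 hne
  · intro u v h1
    have hD := hdeg u
    rcases hval u v h1 with ⟨a1, a2⟩ | ⟨a1, a2⟩ | ⟨a1, a2, a3⟩ <;> omega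
  · intro v
    have := hdeg v
    show D - 2 < D
    omega
  · intro v
    have := hdeg v
    show D - 1 < D
    omega
  · intro v
    have := hdeg v
    show D - 2 ≠ D - 1
    omega

/-- The conjecture for graphs which become bipartite after deleting one edge. -/
theorem oneEdge [Fintype V] (G : SimpleGraph V) (e : Sym2 V)
    (h : (G.deleteEdges {e}).Colorable 2) (k : ℕ) :
    G.lineGraph.Colorable k ↔ Choosable G k := by
  classical
  refine ⟨fun hk => ?_, col_of_choosable G k⟩
  set M : SimpleGraph V := G \ G.deleteEdges {e} with hM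
  have hMadj : ∀ u v, M.Adj u v ↔ G.Adj u v ∧ s(u, v) = e := by
    intro u v
    rw [hM, SimpleGraph.sdiff_adj, SimpleGraph.deleteEdges_adj, Set.mem_singleton_iff]
    tauto
  have hGM : G \ M = G.deleteEdges {e} := by
    ext u v
    rw [SimpleGraph.sdiff_adj, hMadj, SimpleGraph.deleteEdges_adj, Set.mem_singleton_iff]
    tauto
  obtain ⟨c, hc, hck, -⟩ := exists_col G k hk
  exact comp G M (by rw [hGM]; exact h) (fun u v h => ((hMadj u v).1 h).1)
    (fun u v u' v' h1 h2 _ => ((hMadj u v).1 h1).2.trans ((hMadj u' v').1 h2).2.symm) k c hc hck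

open Classical in
/-- A graph of odd order `n` coloured with `D` colours has degree sum at most `D (n - 1)`. -/
theorem overfull [Fintype V] (G : SimpleGraph V) (D : ℕ) (hodd : Odd (Fintype.card V))
    (h : G.lineGraph.Colorable D) : ∑ v, dg G v ≤ D * (Fintype.card V - 1) := by
  obtain ⟨c, hc, hck, -⟩ := exists_col G D h
  set P : V → ℕ → Prop := fun v i => ∃ w, G.Adj v w ∧ c s(v, w) = i with hP
  have h1 : ∀ v, dg G v = ((range D).filter (fun i => P v i)).card := by
    intro v
    rw [dg_eq]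
    refine Finset.card_bij (fun w _ => c s(v, w)) ?_ ?_ ?_
    · intro w hw
      have hw' := (Finset.mem_filter.1 hw).2
      rw [Finset.mem_filter, Finset.mem_range]
      exact ⟨hck v w hw', w, hw', rfl⟩
    · intro a ha b hb hab
      by_contra hne
      exact hc v a b (Finset.mem_filter.1 ha).2 (Finset.mem_filter.1 hb).2 hne hab
    · intro i hi
      obtain ⟨-, w, hw, rfl⟩ := Finset.mem_filter.1 hi
      exact ⟨w, Finset.mem_filter.2 ⟨Finset.mem_univ _, hw⟩, rfl⟩
  have h2 : ∀ i, (univ.filter (fun v => P v i)).card ≤ Fintype.card V - 1 := by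
    intro i
    have hev : Even (univ.filter (fun v => P v i)).card := by
      have hg : ∀ v, P v i → ∃ w, G.Adj v w ∧ c s(v, w) = i := fun v hv => hv
      choose! g hg1 hg2 using hg
      rw [← ZMod.natCast_eq_zero_iff_even, Finset.card_eq_sum_ones, Nat.cast_sum]
      refine Finset.sum_involution (fun v _ => g v) ?_ ?_ ?_ ?_
      · intro v _
        decide
      · intro v hv _ heq
        have := hg1 v (Finset.mem_filter.1 hv).2
        rw [heq] at this
        exact G.loopless.irrefl _ this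
      · intro v hv
        have hv' := (Finset.mem_filter.1 hv).2
        rw [Finset.mem_filter]
        refine ⟨Finset.mem_univ _, v, (hg1 v hv').symm, ?_⟩
        rw [Sym2.eq_swap]
        exact hg2 v hv'
      · intro v hv
        have hv' := (Finset.mem_filter.1 hv).2
        have hPg : P (g v) i := ⟨v, (hg1 v hv').symm, by rw [Sym2.eq_swap]; exact hg2 v hv'⟩
        by_contra hne
        have e1 : c s(g v, g (g v)) = i := hg2 _ hPg
        have e2 : c s(g v, v) = i := by rw [Sym2.eq_swap]; exact hg2 v hv'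
        exact hc (g v) (g (g v)) v (hg1 _ hPg) (hg1 v hv').symm hne (e1.trans e2.symm)
    have hle : (univ.filter (fun v => P v i)).card ≤ Fintype.card V := by
      rw [← Finset.card_univ]
      exact Finset.card_filter_le _ _
    obtain ⟨a, ha⟩ := hev
    obtain ⟨b, hb⟩ := hodd
    omega
  calc ∑ v, dg G v = ∑ v, ((range D).filter (fun i => P v i)).card :=
        Finset.sum_congr rfl (fun v _ => h1 v)
    _ = ∑ i ∈ range D, (univ.filter (fun v => P v i)).card := by
        simp only [Finset.card_filter]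
        rw [Finset.sum_comm]
    _ ≤ ∑ _i ∈ range D, (Fintype.card V - 1) := Finset.sum_le_sum (fun i _ => h2 i)
    _ = D * (Fintype.card V - 1) := by
        rw [Finset.sum_const, Finset.card_range, smul_eq_mul]

end Pool.Agent.U348.LB
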