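import Pool.Agent.U348.LB.Ord

set_option autoImplicit false

/-!
# Bipartite graphs plus a matching: list edge colourings
-/

namespace Pool.Agent.U348.LB

open Finset Pool.Agent.TH559.LE

variable {V : Type}

/-- The edges inside `X` and inside its complement. -/
def inner (G : SimpleGraph V) (X : Set V) : SimpleGraph V where
  Adj u v := G.Adj u v ∧ (u ∈ X ↔ v ∈ X)
  symm := ⟨fun _ _ h => ⟨h.1.symm, h.2.symm⟩⟩
  loopless := ⟨fun _ h => G.loopless.irrefl _ h.1⟩

theorem dg_le_one [Fintype V] (M : SimpleGraph V) (hM : ∀ u v w, M.Adj u v → M.Adj u w → v = w)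
    (u : V) : dg M u ≤ 1 := by
  unfold dg
  rw [Set.ncard_le_one (Set.toFinite _)]
  intro a ha b hb
  exact hM u a b ha hb

open Classical in
/-- Any colouring of a bipartizing matching extends to all lists of `D + 1` colours. -/
theorem pre [Fintype V] (G M : SimpleGraph V) (D : ℕ) (hMG : M ≤ G)
    (hM : ∀ u v w, M.Adj u v → M.Adj u w → v = w) (X : V → Prop)
    (hX : ∀ u v, G.Adj u v → ¬ M.Adj u v → (X u ↔ ¬ X v)) (hD : ∀ v, dg G v ≤ D)
    (L : Sym2 V → Finset ℕ) (c₀ : Sym2 V → ℕ)
    (hL : ∀ u v, G.Adj u v → ¬ M.Adj u v → D + 1 ≤ (L s(u, v)).card) :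
    ∃ c : Sym2 V → ℕ, (∀ u v w, G.Adj u v → G.Adj u w → v ≠ w → c s(u, v) ≠ c s(u, w)) ∧
      (∀ u v, M.Adj u v → c s(u, v) = c₀ s(u, v)) ∧
      ∀ u v, G.Adj u v → ¬ M.Adj u v → c s(u, v) ∈ L s(u, v) := by
  set L' : Sym2 V → Finset ℕ := fun z => if z ∈ M.edgeSet then {c₀ z} else L z with hL'
  have h1 : ∀ u v, M.Adj u v → L' s(u, v) = {c₀ s(u, v)} := by
    intro u v h
    simp only [hL']
    rw [if_pos ((SimpleGraph.mem_edgeSet M).2 h)]
  have h2 : ∀ u v, ¬ M.Adj u v → L' s(u, v) = L s(u, v) := by
    intro u v h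
    simp only [hL']
    rw [if_neg (fun h' => h ((SimpleGraph.mem_edgeSet M).1 h'))]
  obtain ⟨c, hc⟩ := ext M G hMG X hX L' (by
    intro u v h3 h4
    rw [h2 u v h4]
    have := hL u v h3 h4
    have := hD u
    have := dg_le_one M hM v
    omega) c₀ ⟨fun u v h => by rw [h1 u v h]; exact Finset.mem_singleton_self _,
      fun u v w h3 h4 h5 => absurd (hM u v w h3 h4) h5⟩
  refine ⟨c, hc.2, ?_, ?_⟩
  · intro u v h
    have := hc.1 u v (hMG h)
    rw [h1 u v h] at this
    exact Finset.mem_singleton.1 this
  · intro u v h3 h4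
    have := hc.1 u v h3
    rwa [h2 u v h4] at this

open Classical in
/-- Suppose that in a proper colouring with `k` colours and in every component, the edges inside `X`
have the colour `α` and the edges inside the complement the colour `β` (`α`, `β` depend only on the
component). Then every colouring of these edges extends to all lists of `k` colours. -/
theorem two [Fintype V] (G : SimpleGraph V) (X : Set V) (k : ℕ) (c : Sym2 V → ℕ) (α β : V → ℕ)
    (hc : ∀ u v w, G.Adj u v → G.Adj u w → v ≠ w → c s(u, v) ≠ c s(u, w))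
    (hk : ∀ u v, G.Adj u v → c s(u, v) < k) (hα : ∀ v, α v < k)
    (hβ : ∀ v, β v < k) (hαβ : ∀ v, α v ≠ β v) (hαc : ∀ u v, G.Adj u v → α u = α v)
    (hβc : ∀ u v, G.Adj u v → β u = β v)
    (hin : ∀ u v, G.Adj u v → u ∈ X → v ∈ X → c s(u, v) = α u)
    (hout : ∀ u v, G.Adj u v → u ∉ X → v ∉ X → c s(u, v) = β u)
    (L : Sym2 V → Finset ℕ) (c₀ : Sym2 V → ℕ)
    (hL : ∀ u v, G.Adj u v → ¬ (u ∈ X ↔ v ∈ X) → k ≤ (L s(u, v)).card) :
    ∃ c' : Sym2 V → ℕ, (∀ u v w, G.Adj u v → G.Adj u w → v ≠ w → c' s(u, v) ≠ c' s(u, w)) ∧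
      (∀ u v, G.Adj u v → (u ∈ X ↔ v ∈ X) → c' s(u, v) = c₀ s(u, v)) ∧
      ∀ u v, G.Adj u v → ¬ (u ∈ X ↔ v ∈ X) → c' s(u, v) ∈ L s(u, v) := by
  set A := inner G X with hA
  have hAadj : ∀ u v, A.Adj u v ↔ G.Adj u v ∧ (u ∈ X ↔ v ∈ X) := fun u v => Iff.rfl
  have hAG : A ≤ G := fun u v h => h.1
  have hcross : ∀ u v, G.Adj u v → ¬ A.Adj u v → ¬ (u ∈ X ↔ v ∈ X) :=
    fun u v h1 h2 h3 => h2 ⟨h1, h3⟩
  have hAone : ∀ u v w, A.Adj u v → A.Adj u w → v = w := by
    intro u v w h1 h2
    by_contra hne
    have h3 := hc u v w h1.1 h2.1 hne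
    by_cases hu : u ∈ X
    · exact h3 ((hin u v h1.1 hu (h1.2.1 hu)).trans (hin u w h2.1 hu (h2.2.1 hu)).symm)
    · exact h3 ((hout u v h1.1 hu (fun h => hu (h1.2.2 h))).trans
        (hout u w h2.1 hu (fun h => hu (h2.2.2 h))).symm)
  set P : V → ℕ → ℕ := fun x j => if j = α x then k + 1 else if j = β x then 0 else j + 1 with hP
  have hPα : ∀ x, P x (α x) = k + 1 := by
    intro x
    simp [hP]
  have hPβ : ∀ x, P x (β x) = 0 := by
    intro x
    simp only [hP]
    rw [if_neg (Ne.symm (hαβ x))]
    simp
  have hPle : ∀ x j, j < k → P x j ≤ k + 1 := by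
    intro x j hj
    simp only [hP]
    split_ifs <;> omega
  have hPinj : ∀ x i j, i < k → j < k → P x i = P x j → i = j := by
    intro x i j hi hj h
    simp only [hP] at h
    split_ifs at h <;> omega
  have hPadj : ∀ u v, G.Adj u v → P u = P v := by
    intro u v huv
    simp only [hP, hαc u v huv, hβc u v huv]
  set r : Sym2 V → ℕ := fun z => P z.out.1 (c z) with hr
  have hrP : ∀ u v, G.Adj u v → r s(u, v) = P u (c s(u, v)) := by
    intro u v huv
    have h1 := Sym2.out_fst_mem s(u, v)
    rw [Sym2.mem_iff] at h1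
    simp only [hr]
    rcases h1 with h1 | h1
    · rw [h1]
    · rw [h1, hPadj u v huv]
  obtain ⟨c', h1, h2, h3⟩ := extOrd A G hAG (fun v => v ∈ X)
    (fun u v h1 h2 => by have := hcross u v h1 h2; tauto) L r
    (by
      intro u v w h1 _ h3 _ hne h
      rw [hrP u v h1, hrP u w h3] at h
      exact hc u v w h1 h3 hne (hPinj _ _ _ (hk u v h1) (hk u w h3) h))
    (by
      intro u v hu huv huv'
      have hv : v ∉ X := by
        have := hcross u v huv huv'
        intro hv
        exact this ⟨fun _ => hv, fun _ => hu⟩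
      have hPuv := hPadj u v huv
      have hβuv := hβc u v huv
      obtain ⟨j, hjdef⟩ : ∃ j, c s(u, v) = j := ⟨_, rfl⟩
      have hj : j < k := hjdef ▸ hk u v huv
      have hrj : r s(u, v) = P u j := by rw [hrP u v huv, hjdef]
      set S1 := (univ.filter (fun w => G.Adj u w ∧ ¬ A.Adj u w ∧ r s(u, v) < r s(u, w))).image
        (fun w => c s(u, w)) with hS1
      set S2 := (univ.filter (fun w => G.Adj v w ∧ ¬ A.Adj v w ∧ r s(v, w) < r s(u, v))).image
        (fun w => c s(v, w)) with hS2
      have c1 : S1.card =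
          (univ.filter (fun w => G.Adj u w ∧ ¬ A.Adj u w ∧ r s(u, v) < r s(u, w))).card := by
        rw [hS1, Finset.card_image_of_injOn]
        intro a ha b hb hab
        have ha' := (Finset.mem_filter.1 (Finset.mem_coe.1 ha)).2
        have hb' := (Finset.mem_filter.1 (Finset.mem_coe.1 hb)).2
        by_contra hne
        exact hc u a b ha'.1 hb'.1 hne hab
      have c2 : S2.card =
          (univ.filter (fun w => G.Adj v w ∧ ¬ A.Adj v w ∧ r s(v, w) < r s(u, v))).card := by
        rw [hS2, Finset.card_image_of_injOn]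
        intro a ha b hb hab
        have ha' := (Finset.mem_filter.1 (Finset.mem_coe.1 ha)).2
        have hb' := (Finset.mem_filter.1 (Finset.mem_coe.1 hb)).2
        by_contra hne
        exact hc v a b ha'.1 hb'.1 hne hab
      set Iu : Finset ℕ := if (∃ w, A.Adj u w) then {α u} else ∅ with hIu
      set Iv : Finset ℕ := if (∃ w, A.Adj v w) then {β v} else ∅ with hIv
      have du : dg A u ≤ Iu.card := by
        by_cases h : ∃ w, A.Adj u w
        · rw [hIu, if_pos h, Finset.card_singleton]
          exact dg_le_one A hAone u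
        · rw [hIu, if_neg h]
          have : dg A u = 0 := by
            unfold dg
            rw [Set.ncard_eq_zero (Set.toFinite _)]
            ext w
            simp only [SimpleGraph.mem_neighborSet, Set.mem_empty_iff_false, iff_false]
            exact fun hw => h ⟨w, hw⟩
          omega
      have dv : dg A v ≤ Iv.card := by
        by_cases h : ∃ w, A.Adj v w
        · rw [hIv, if_pos h, Finset.card_singleton]
          exact dg_le_one A hAone v
        · rw [hIv, if_neg h]
          have : dg A v = 0 := by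
            unfold dg
            rw [Set.ncard_eq_zero (Set.toFinite _)]
            ext w
            simp only [SimpleGraph.mem_neighborSet, Set.mem_empty_iff_false, iff_false]
            exact fun hw => h ⟨w, hw⟩
          omega
      have m1 : ∀ i ∈ S1, i < k ∧ P u j < P u i ∧ i ∉ Iu := by
        intro i hi
        rw [hS1] at hi
        obtain ⟨w, hw, rfl⟩ := Finset.mem_image.1 hi
        obtain ⟨-, w1, w2, w3⟩ := Finset.mem_filter.1 hw
        rw [hrj, hrP u w w1] at w3
        refine ⟨hk u w w1, w3, ?_⟩
        rw [hIu]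
        split_ifs with h
        · obtain ⟨w0, h0⟩ := h
          rw [Finset.mem_singleton]
          intro heq
          have e0 := hin u w0 h0.1 hu (h0.2.1 hu)
          exact hc u w w0 w1 h0.1 (fun h => w2 (h ▸ h0)) (heq.trans e0.symm)
        · simp
      have m2 : ∀ i ∈ S2, i < k ∧ P u i < P u j ∧ i ∉ Iv := by
        intro i hi
        rw [hS2] at hi
        obtain ⟨w, hw, rfl⟩ := Finset.mem_image.1 hi
        obtain ⟨-, w1, w2, w3⟩ := Finset.mem_filter.1 hw
        rw [hrj, hrP v w w1, ← hPuv] at w3
        refine ⟨hk v w w1, w3, ?_⟩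
        rw [hIv]
        split_ifs with h
        · obtain ⟨w0, h0⟩ := h
          rw [Finset.mem_singleton]
          intro heq
          have e0 := hout v w0 h0.1 hv (fun h => hv (h0.2.2 h))
          exact hc v w w0 w1 h0.1 (fun h => w2 (h ▸ h0)) (heq.trans e0.symm)
        · simp
      have jI : j ∉ Iu ∧ j ∉ Iv := by
        constructor
        · rw [hIu]
          split_ifs with h
          · obtain ⟨w0, h0⟩ := h
            rw [Finset.mem_singleton]
            intro heq
            have e0 := hin u w0 h0.1 hu (h0.2.1 hu)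
            exact hc u v w0 huv h0.1 (fun h => huv' (h ▸ h0)) ((hjdef.trans heq).trans e0.symm)
          · simp
        · rw [hIv]
          split_ifs with h
          · obtain ⟨w0, h0⟩ := h
            rw [Finset.mem_singleton]
            intro heq
            have e0 := hout v w0 h0.1 hv (fun h => hv (h0.2.2 h))
            have e1 : c s(v, u) = β v := by rw [Sym2.eq_swap]; exact hjdef.trans heq
            exact hc v u w0 huv.symm h0.1 (fun h => huv' ((h ▸ h0 : A.Adj v u).symm))
              (e1.trans e0.symm)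
          · simp
      have mu : ∀ i ∈ Iu, i = α u := by
        intro i hi
        rw [hIu] at hi
        split_ifs at hi with h
        · exact Finset.mem_singleton.1 hi
        · simp at hi
      have mv : ∀ i ∈ Iv, i = β u := by
        intro i hi
        rw [hIv] at hi
        split_ifs at hi with h
        · exact (Finset.mem_singleton.1 hi).trans hβuv.symm
        · simp at hi
      have hjle := hPle u j hj
      -- five disjoint sets of colours
      have D1 : Disjoint S1 S2 := by
        rw [Finset.disjoint_left]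
        intro i h1 h2
        have := (m1 i h1).2.1
        have := (m2 i h2).2.1
        omega
      have D2 : Disjoint (S1 ∪ S2) {j} := by
        rw [Finset.disjoint_singleton_right, Finset.mem_union]
        rintro (h | h)
        · exact lt_irrefl _ (m1 j h).2.1
        · exact lt_irrefl _ (m2 j h).2.1
      have D3 : Disjoint (S1 ∪ S2 ∪ {j}) Iu := by
        rw [Finset.disjoint_left]
        intro i h1 h2
        rw [Finset.mem_union, Finset.mem_union] at h1
        rcases h1 with (h1 | h1) | h1
        · exact (m1 i h1).2.2 h2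
        · have h4 := (m2 i h1).2.1
          rw [mu i h2, hPα] at h4
          omega
        · rw [Finset.mem_singleton] at h1
          rw [h1] at h2
          exact jI.1 h2
      have D4 : Disjoint (S1 ∪ S2 ∪ {j} ∪ Iu) Iv := by
        rw [Finset.disjoint_left]
        intro i h1 h2
        rw [Finset.mem_union, Finset.mem_union, Finset.mem_union] at h1
        rcases h1 with ((h1 | h1) | h1) | h1
        · have h4 := (m1 i h1).2.1
          rw [mv i h2, hPβ] at h4
          omega
        · exact (m2 i h1).2.2 h2
        · rw [Finset.mem_singleton] at h1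
          rw [h1] at h2
          exact jI.2 h2
        · exact hαβ u ((mu i h1).symm.trans (mv i h2))
      have hsub : S1 ∪ S2 ∪ {j} ∪ Iu ∪ Iv ⊆ range k := by
        intro i hi
        rw [Finset.mem_range]
        simp only [Finset.mem_union, Finset.mem_singleton] at hi
        rcases hi with (((h | h) | h) | h) | h
        · exact (m1 i h).1
        · exact (m2 i h).1
        · rw [h]; exact hj
        · rw [mu i h]; exact hα u
        · rw [mv i h]; exact hβ u
      have hcard := Finset.card_le_card hsub
      rw [Finset.card_union_of_disjoint D4, Finset.card_union_of_disjoint D3,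
        Finset.card_union_of_disjoint D2, Finset.card_union_of_disjoint D1,
        Finset.card_singleton, Finset.card_range, c1, c2] at hcard
      have := hL u v huv (hcross u v huv huv')
      omega)
    c₀ (fun u v w h1 h2 h3 => absurd (hAone u v w h1 h2) h3)
  refine ⟨c', h1, fun u v h4 h5 => h2 u v ⟨h4, h5⟩, fun u v h4 h5 => h3 u v h4 ?_⟩
  rintro ⟨-, h6⟩
  exact h5 h6

end Pool.Agent.U348.LB
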