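import Pool.Agent.TH559.LE.Trans

set_option autoImplicit false

/-!
# Extending colourings to bipartite sets of edges along an order given by a colouring
-/

namespace Pool.Agent.U348.LB

open Finset Pool.Agent.TH559.LE

open Classical in
/-- Galvin's theorem for a given ranking of the edges. -/
theorem gal {V : Type} [Fintype V] (E : Finset (V × V)) (r : V × V → ℕ) (L : V × V → Finset ℕ)
    (hr : ∀ e ∈ E, ∀ f ∈ E, e.1 = f.1 ∨ e.2 = f.2 → r e = r f → e = f)
    (hL : ∀ e ∈ E, (E.filter (fun f => f.1 = e.1 ∧ r e < r f)).card +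
        (E.filter (fun f => f.2 = e.2 ∧ r f < r e)).card < (L e).card) :
    ∃ φ : V × V → ℕ, ∀ e ∈ E, φ e ∈ L e ∧
      ∀ f ∈ E, f ≠ e → (f.1 = e.1 ∨ f.2 = e.2) → φ f ≠ φ e := by
  have tr : ∀ P : V × V → Prop, ((univ : Finset {e // e ∈ E}).filter (fun f => P f.1)).card =
      (E.filter P).card := by
    intro P
    refine Finset.card_bij (fun f _ => f.1) ?_ ?_ ?_
    · intro f hf
      rw [Finset.mem_filter] at hf ⊢
      exact ⟨f.2, hf.2⟩
    · intro a _ b _ h
      exact Subtype.ext h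
    · intro f hf
      rw [Finset.mem_filter] at hf
      exact ⟨⟨f, hf.1⟩, Finset.mem_filter.2 ⟨Finset.mem_univ _, hf.2⟩, rfl⟩
  obtain ⟨φ, hφ⟩ := galvin (α := {e // e ∈ E}) (fun e => e.1.1) (fun e => e.1.2)
    (fun e => r e.1) (fun e => r e.1)
    (fun e f h1 h2 => Subtype.ext (hr e.1 e.2 f.1 f.2 (Or.inl h1) h2))
    (fun e f h1 h2 => Subtype.ext (hr e.1 e.2 f.1 f.2 (Or.inr h1) h2))
    _ univ (fun e => L e.1) rfl (by
      intro e _
      refine lt_of_le_of_lt (le_of_eq ?_) (hL e.1 e.2)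
      refine congrArg₂ (· + ·) ?_ ?_
      · have h := tr (fun f => f.1 = e.1.1 ∧ r e.1 < r f)
        convert h
      · have h := tr (fun f => f.2 = e.1.2 ∧ r f < r e.1)
        convert h)
  refine ⟨fun e => if h : e ∈ E then φ ⟨e, h⟩ else 0, ?_⟩
  intro e he
  obtain ⟨h1, h2⟩ := hφ ⟨e, he⟩ (Finset.mem_univ _)
  simp only [dif_pos he]
  refine ⟨h1, fun f hf hfe hor => ?_⟩
  simp only [dif_pos hf]
  intro heq
  have := h2 ⟨f, hf⟩ (Finset.mem_univ _) (fun h => hfe (congrArg Subtype.val h)) heq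
  rcases hor with h | h
  · exact this.1 h
  · exact this.2 h

variable {V : Type}

open Classical in
/-- A colouring of `A` extends to a bipartite set of new edges if the lists are longer than the
number of successors for a ranking `r` of the new edges. -/
theorem extOrd [Fintype V] (A B : SimpleGraph V) (hAB : A ≤ B) (X : V → Prop)
    (hX : ∀ u v, B.Adj u v → ¬ A.Adj u v → (X u ↔ ¬ X v)) (L : Sym2 V → Finset ℕ)
    (r : Sym2 V → ℕ)
    (hr : ∀ u v w, B.Adj u v → ¬ A.Adj u v → B.Adj u w → ¬ A.Adj u w → v ≠ w →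
      r s(u, v) ≠ r s(u, w))
    (hL : ∀ u v, X u → B.Adj u v → ¬ A.Adj u v →
      (univ.filter (fun w => B.Adj u w ∧ ¬ A.Adj u w ∧ r s(u, v) < r s(u, w))).card +
      (univ.filter (fun w => B.Adj v w ∧ ¬ A.Adj v w ∧ r s(v, w) < r s(u, v))).card +
      dg A u + dg A v < (L s(u, v)).card)
    (c : Sym2 V → ℕ) (hc : ∀ u v w, A.Adj u v → A.Adj u w → v ≠ w → c s(u, v) ≠ c s(u, w)) :
    ∃ c' : Sym2 V → ℕ, (∀ u v w, B.Adj u v → B.Adj u w → v ≠ w → c' s(u, v) ≠ c' s(u, w)) ∧
      (∀ u v, A.Adj u v → c' s(u, v) = c s(u, v)) ∧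
      ∀ u v, B.Adj u v → ¬ A.Adj u v → c' s(u, v) ∈ L s(u, v) := by
  set E : Finset (V × V) := univ.filter (fun e => X e.1 ∧ B.Adj e.1 e.2 ∧ ¬ A.Adj e.1 e.2) with hE
  have hEm : ∀ e, e ∈ E ↔ X e.1 ∧ B.Adj e.1 e.2 ∧ ¬ A.Adj e.1 e.2 := by
    intro e
    simp [hE]
  set I : V → Finset ℕ := fun u => (univ.filter (fun w => A.Adj u w)).image (fun w => c s(u, w))
    with hI
  have hIc : ∀ u, (I u).card ≤ dg A u := by
    intro u
    rw [dg_eq]
    exact Finset.card_image_le
  have hIm : ∀ u w, A.Adj u w → c s(u, w) ∈ I u := by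
    intro u w h
    rw [hI]
    exact Finset.mem_image.2 ⟨w, by simpa using h, rfl⟩
  set L' : V × V → Finset ℕ := fun e => L s(e.1, e.2) \ (I e.1 ∪ I e.2) with hL'
  have d1 : ∀ u v, (E.filter (fun f => f.1 = u ∧ r s(u, v) < r s(f.1, f.2))).card ≤
      (univ.filter (fun w => B.Adj u w ∧ ¬ A.Adj u w ∧ r s(u, v) < r s(u, w))).card := by
    intro u v
    apply Finset.card_le_card_of_injOn (fun f => f.2)
    · intro f hf
      obtain ⟨h1, h2, h3⟩ := Finset.mem_filter.1 (Finset.mem_coe.1 hf)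
      rw [hEm] at h1
      rw [h2] at h1 h3
      simpa using ⟨h1.2.1, h1.2.2, h3⟩
    · intro f hf g hg hfg
      have hf' := Finset.mem_filter.1 (Finset.mem_coe.1 hf)
      have hg' := Finset.mem_filter.1 (Finset.mem_coe.1 hg)
      exact Prod.ext (hf'.2.1.trans hg'.2.1.symm) hfg
  have d2 : ∀ u v, (E.filter (fun f => f.2 = v ∧ r s(f.1, f.2) < r s(u, v))).card ≤
      (univ.filter (fun w => B.Adj v w ∧ ¬ A.Adj v w ∧ r s(v, w) < r s(u, v))).card := by
    intro u v
    apply Finset.card_le_card_of_injOn (fun f => f.1)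
    · intro f hf
      obtain ⟨h1, h2, h3⟩ := Finset.mem_filter.1 (Finset.mem_coe.1 hf)
      rw [hEm] at h1
      rw [h2] at h1 h3
      rw [Sym2.eq_swap] at h3
      simpa using ⟨h1.2.1.symm, fun h => h1.2.2 h.symm, h3⟩
    · intro f hf g hg hfg
      have hf' := Finset.mem_filter.1 (Finset.mem_coe.1 hf)
      have hg' := Finset.mem_filter.1 (Finset.mem_coe.1 hg)
      exact Prod.ext hfg (hf'.2.1.trans hg'.2.1.symm)
  obtain ⟨φ, hφ⟩ := gal E (fun e => r s(e.1, e.2)) L' (by
      rintro ⟨a, b⟩ he ⟨a', b'⟩ hf hor hre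
      obtain ⟨-, h2, h3⟩ := (hEm _).1 he
      obtain ⟨-, h5, h6⟩ := (hEm _).1 hf
      simp only at h2 h3 h5 h6 hor hre
      rcases hor with rfl | rfl
      · by_contra hne
        exact hr a b b' h2 h3 h5 h6 (fun h => hne (by rw [h])) hre
      · by_contra hne
        refine hr b a a' h2.symm (fun h => h3 h.symm) h5.symm (fun h => h6 h.symm)
          (fun h => hne (by rw [h])) ?_
        rw [Sym2.eq_swap, hre, Sym2.eq_swap]) (by
    intro e he
    obtain ⟨h1, h2, h3⟩ := (hEm e).1 he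
    have b1 := hL e.1 e.2 h1 h2 h3
    have b3 := d1 e.1 e.2
    have b4 := d2 e.1 e.2
    have b5 := hIc e.1
    have b6 := hIc e.2
    have b7 : (L s(e.1, e.2)).card ≤ (L' e).card + (I e.1 ∪ I e.2).card := by
      have := Finset.card_le_card_sdiff_add_card (t := I e.1 ∪ I e.2) (s := L s(e.1, e.2))
      simpa [hL'] using this
    have b8 := Finset.card_union_le (I e.1) (I e.2)
    omega)
  -- the edge in `E` belonging to a pair of vertices
  set ν : V → V → V × V := fun u v => if X u then (u, v) else (v, u) with hν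
  have hν1 : ∀ u v, B.Adj u v → ¬ A.Adj u v → ν u v ∈ E := by
    intro u v h1 h2
    rw [hEm]
    by_cases hu : X u
    · simp only [hν, if_pos hu]
      exact ⟨hu, h1, h2⟩
    · simp only [hν, if_neg hu]
      have := hX u v h1 h2
      refine ⟨?_, h1.symm, fun h => h2 h.symm⟩
      by_contra hv
      exact hu (this.2 hv)
  have hν2 : ∀ u v, s((ν u v).1, (ν u v).2) = s(u, v) := by
    intro u v
    by_cases hu : X u
    · simp only [hν, if_pos hu]
    · simp only [hν, if_neg hu]
      exact Sym2.eq_swap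
  have huniq : ∀ e ∈ E, ∀ f ∈ E, s(e.1, e.2) = s(f.1, f.2) → e = f := by
    intro e he f hf h
    rw [Sym2.eq_iff] at h
    rcases h with h | h
    · exact Prod.ext h.1 h.2
    · exfalso
      obtain ⟨h1, h2, h3⟩ := (hEm e).1 he
      obtain ⟨h4, h5, h6⟩ := (hEm f).1 hf
      have := (hX e.1 e.2 h2 h3).1 h1
      rw [h.2] at this
      exact this h4
  set c' : Sym2 V → ℕ := fun z => if z ∈ A.edgeSet then c z else
    if h : ∃ e ∈ E, s(e.1, e.2) = z then φ (Classical.choose h) else 0 with hc'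
  have hcA : ∀ u v, A.Adj u v → c' s(u, v) = c s(u, v) := by
    intro u v h
    simp only [hc']
    rw [if_pos ((SimpleGraph.mem_edgeSet A).2 h)]
  have hcN : ∀ u v, B.Adj u v → ¬ A.Adj u v → c' s(u, v) = φ (ν u v) := by
    intro u v h1 h2
    simp only [hc']
    have hex : ∃ e ∈ E, s(e.1, e.2) = s(u, v) := ⟨ν u v, hν1 u v h1 h2, hν2 u v⟩
    rw [if_neg (fun h => h2 ((SimpleGraph.mem_edgeSet A).1 h)), dif_pos hex]
    congr 1
    apply huniq _ (Classical.choose_spec hex).1 _ (hν1 u v h1 h2)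
    rw [(Classical.choose_spec hex).2, hν2]
  refine ⟨c', ?_, hcA, ?_⟩
  · have mixed : ∀ u v w, A.Adj u v → B.Adj u w → ¬ A.Adj u w → c' s(u, v) ≠ c' s(u, w) := by
      intro u v w h1 h2 h3 heq
      rw [hcA u v h1, hcN u w h2 h3] at heq
      have := (hφ (ν u w) (hν1 u w h2 h3)).1
      rw [hL'] at this
      have := (Finset.mem_sdiff.1 this).2
      apply this
      rw [← heq, Finset.mem_union]
      by_cases hu : X u
      · left
        simp only [hν, if_pos hu]
        exact hIm u v h1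
      · right
        simp only [hν, if_neg hu]
        exact hIm u v h1
    intro u v w h1 h2 hvw
    by_cases hA : A.Adj u v
    · by_cases hB : A.Adj u w
      · rw [hcA u v hA, hcA u w hB]
        exact hc u v w hA hB hvw
      · exact mixed u v w hA h2 hB
    · by_cases hB : A.Adj u w
      · exact (mixed u w v hB h1 hA).symm
      · rw [hcN u v h1 hA, hcN u w h2 hB]
        refine (hφ (ν u w) (hν1 u w h2 hB)).2 (ν u v) (hν1 u v h1 hA) ?_ ?_
        · intro h
          have e := hν2 u v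
          rw [h, hν2 u w, Sym2.eq_iff] at e
          rcases e with e | e
          · exact hvw e.2.symm
          · exact hvw (e.1.symm.trans e.2.symm)
        · by_cases hu : X u
          · left
            simp only [hν, if_pos hu]
          · right
            simp only [hν, if_neg hu]
  · intro u v h hA
    rw [hcN u v h hA]
    have := (hφ (ν u v) (hν1 u v h hA)).1
    rw [hL'] at this
    have := (Finset.mem_sdiff.1 this).1
    rwa [hν2] at this

end Pool.Agent.U348.LB
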